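import Pool.Agent.Helper15.RA.GoalsR

/-!
# Project RA (MP_cc6379_al): packet RA-RV, the coordinate at `e` for unequal parameters.
-/

set_option autoImplicit false

open LaurentPolynomial

noncomputable section

namespace Pool.Agent.Helper41.RA

open Pool.Agent.Helper15.RA

/-- the sequence `u_l` -/
def uu (u ζ : ℤ[T;T⁻¹]) : ℕ → ℤ[T;T⁻¹]
  | 0 => u
  | 1 => -ζ * u
  | l + 2 => -ζ * uu u ζ (l + 1) - uu u ζ l

theorem uu_deg {u ζ : ℤ[T;T⁻¹]} {a d : ℤ} (hd : 0 < d) (hu : DegLE a u) (hu1 : u.coeff a = 1) (hζ : DegLE d ζ)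
    (hζ1 : ζ.coeff d = 1) (l : ℕ) :
    (DegLE (a + l * d) (uu u ζ l) ∧ (uu u ζ l).coeff (a + l * d) = (-1) ^ l) ∧
    (DegLE (a + (l + 1 : ℕ) * d) (uu u ζ (l + 1)) ∧
      (uu u ζ (l + 1)).coeff (a + (l + 1 : ℕ) * d) = (-1) ^ (l + 1)) := by
  induction l with
  | zero =>
    refine ⟨⟨?_, ?_⟩, ?_, ?_⟩
    · simpa [uu] using hu
    · simpa [uu] using hu1
    · exact hζ.neg.mul_le hu (by push_cast; linarith)
    · have h := coeff_mul_top hζ.neg hu
      rw [hu1, AddMonoidAlgebra.coeff_neg, Finsupp.neg_apply, hζ1] at h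
      simp only [uu]
      rw [show a + ((0 + 1 : ℕ) : ℤ) * d = d + a by push_cast; ring, h]
      ring
  | succ l ih =>
    obtain ⟨⟨h1, h2⟩, h3, h4⟩ := ih
    refine ⟨⟨h3, h4⟩, ?_, ?_⟩
    · simp only [uu]
      refine (hζ.neg.mul_le h3 (by push_cast; linarith)).sub (h1.mono ?_)
      push_cast
      linarith
    · have h := coeff_mul_top hζ.neg h3
      rw [h4, AddMonoidAlgebra.coeff_neg, Finsupp.neg_apply, hζ1] at h
      simp only [uu]
      rw [AddMonoidAlgebra.coeff_sub, Finsupp.sub_apply, h1 (a + ((l + 1 + 1 : ℕ) : ℤ) * d) (by push_cast; linarith),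
        show a + ((l + 1 + 1 : ℕ) : ℤ) * d = d + (a + ((l + 1 : ℕ) : ℤ) * d) by push_cast; ring, h]
      ring

theorem coeff_T_add {n m : ℤ} (h : m ≠ n) : (T n + T m : ℤ[T;T⁻¹]).coeff n = 1 := by
  rw [AddMonoidAlgebra.coeff_add, Finsupp.add_apply, T_apply, T_apply, if_pos rfl, if_neg h]
  rfl

section

variable {I W H : Type} [Group W] [Ring H] [Algebra ℤ[T;T⁻¹] H] (X : Dih I W H)
  (b : Module.Basis W ℤ[T;T⁻¹] H)

/-- the character `Y ↦ ` the `e`-coordinate of `Y c_e` -/
def rho : H →ₗ[ℤ[T;T⁻¹]] ℤ[T;T⁻¹] := b.coord X.e ∘ₗ LinearMap.mulRight ℤ[T;T⁻¹] (X.D.c X.e)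

variable {X b}

theorem repr_mul (hb : ∀ w, b w = X.D.c w) (x y z : W) : b.repr (X.D.c x * X.D.c y) z = X.h x y z := by
  have h1 : (X.h x y) = b.repr (X.D.c x * X.D.c y) := by
    rw [X.isH x y]
    have h2 : ((X.h x y).sum fun z p => p • X.D.c z) = Finsupp.linearCombination ℤ[T;T⁻¹] b (X.h x y) := by
      rw [Finsupp.linearCombination_apply]
      exact Finsupp.sum_congr fun z _ => by rw [hb]
    rw [h2, Module.Basis.repr_linearCombination]
  rw [h1]

theorem rho_apply (Y : H) : rho X b Y = b.repr (Y * X.D.c X.e) X.e := rfl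

theorem rho_c (hb : ∀ w, b w = X.D.c w) (x : W) : rho X b (X.D.c x) = X.h x X.e X.e := by
  rw [rho_apply, repr_mul hb]

theorem rho_one (hb : ∀ w, b w = X.D.c w) : rho X b 1 = 1 := by
  rw [rho_apply, one_mul, ← hb, Module.Basis.repr_self, Finsupp.single_eq_same]

theorem rho_mul (hb : ∀ w, b w = X.D.c w) (hne : X.e ≠ X.w0)
    (h2 : ∀ x y z, X.h x y z ≠ 0 → x = X.w0 ∨ y = X.w0 → z = X.w0)
    (h3 : ∀ x y z, X.h x y z ≠ 0 → x = X.e ∨ y = X.e → z = X.e ∨ z = X.w0) (Y Y' : H) :
    rho X b (Y * Y') = rho X b Y * rho X b Y' := by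
  -- `Y c_(w₀)` has no `e`-coordinate
  have f2 : ∀ Y, b.repr (Y * X.D.c X.w0) X.e = 0 := by
    intro Y
    have : b.coord X.e ∘ₗ LinearMap.mulRight ℤ[T;T⁻¹] (X.D.c X.w0) = 0 := by
      refine b.ext fun x => ?_
      rw [hb]
      change b.repr (X.D.c x * X.D.c X.w0) X.e = 0
      rw [repr_mul hb]
      by_contra h
      exact hne (h2 _ _ _ h (Or.inr rfl))
    exact LinearMap.congr_fun this Y
  have f1 : ∀ Y, Y * X.D.c X.e = rho X b Y • X.D.c X.e + b.repr (Y * X.D.c X.e) X.w0 • X.D.c X.w0 := by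
    intro Y
    have : LinearMap.mulRight ℤ[T;T⁻¹] (X.D.c X.e) = (rho X b).smulRight (X.D.c X.e) +
        (b.coord X.w0 ∘ₗ LinearMap.mulRight ℤ[T;T⁻¹] (X.D.c X.e)).smulRight (X.D.c X.w0) := by
      refine b.ext fun x => ?_
      rw [hb]
      change X.D.c x * X.D.c X.e = rho X b (X.D.c x) • X.D.c X.e +
        b.repr (X.D.c x * X.D.c X.e) X.w0 • X.D.c X.w0
      rw [rho_c hb, repr_mul hb]
      apply b.repr.injective
      ext1 z
      rw [repr_mul hb, map_add, map_smul, map_smul, ← hb, ← hb, Module.Basis.repr_self, Module.Basis.repr_self,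
        Finsupp.add_apply, Finsupp.smul_apply, Finsupp.smul_apply, smul_eq_mul, smul_eq_mul]
      by_cases hz : z = X.e
      · subst hz
        rw [Finsupp.single_eq_same, Finsupp.single_eq_of_ne hne, mul_one, mul_zero, add_zero]
      · by_cases hz' : z = X.w0
        · subst hz'
          rw [Finsupp.single_eq_same, Finsupp.single_eq_of_ne hz, mul_one, mul_zero, zero_add]
        · rw [Finsupp.single_eq_of_ne hz, Finsupp.single_eq_of_ne hz', mul_zero, mul_zero, add_zero]
          by_contra h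
          rcases h3 _ _ _ h (Or.inr rfl) with h4 | h4
          · exact hz h4
          · exact hz' h4
    exact LinearMap.congr_fun this Y
  rw [rho_apply, mul_assoc, f1 Y', mul_add, mul_smul_comm, mul_smul_comm, map_add, map_smul, map_smul,
    Finsupp.add_apply, Finsupp.smul_apply, Finsupp.smul_apply, f2, smul_zero, add_zero, smul_eq_mul, ← rho_apply,
    mul_comm]

theorem rho_E (hb : ∀ w, b w = X.D.c w) (hm : ∀ Y Y', rho X b (Y * Y') = rho X b Y * rho X b Y')
    (hi : rho X b X.ci = dl X.a) (hj : rho X b X.cj = 0) (k : ℕ) :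
    (rho X b (X.E (2 * k)) = 0 ∧ rho X b (X.E (2 * k + 1)) = uu (dl X.a) X.zeta k) ∧
    (rho X b (X.E (2 * (k + 1))) = 0 ∧ rho X b (X.E (2 * (k + 1) + 1)) = uu (dl X.a) X.zeta (k + 1)) := by
  have hZ : rho X b X.Z = -X.zeta := by
    unfold Dih.Z
    rw [map_sub, hm, hj, mul_zero, map_smul, rho_one hb, smul_eq_mul, mul_one, zero_sub]
  induction k with
  | zero =>
    refine ⟨⟨?_, ?_⟩, ?_, ?_⟩
    · simp [Dih.E, EE]
    · simpa [Dih.E, EE, uu] using hi
    · simp [Dih.E, EE, hm, hj]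
    · simp [Dih.E, EE, uu, hm, hZ, hi]
  | succ k ih =>
    obtain ⟨⟨h1, h2⟩, h3, h4⟩ := ih
    refine ⟨⟨h3, h4⟩, ?_, ?_⟩
    · have : X.E (2 * (k + 1 + 1)) = X.Z * X.E (2 * (k + 1)) - X.E (2 * k) := rfl
      rw [this, map_sub, hm, h3, h1, mul_zero, sub_zero]
    · have : X.E (2 * (k + 1 + 1) + 1) = X.Z * X.E (2 * (k + 1) + 1) - X.E (2 * k + 1) := rfl
      rw [this, map_sub, hm, h4, h2, hZ]
      rfl

end

theorem h_rv (g2 : H_2) (g3 : H_3) (gw : R_W) (ge : R_E) (gu : R_U) : R_V := by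
  classical
  intro I W H _ _ _ X hba
  obtain ⟨⟨b, hb, -⟩, -⟩ := g3 I W H X.M X.cs X.L X.wt X.D
  obtain ⟨-, -, -, -, -, -, -, hc1, -⟩ := g2 I W H X.M X.cs X.L X.wt X.D
  have hM : X.M X.i X.j ≠ 0 := by
    have := X.hm
    omega
  obtain ⟨w1, w2, w3, w4, -, -, w5⟩ := gw I W X.M X.cs X.i X.j X.ne X.all hM
  obtain ⟨-, -, -, w6⟩ := w5 X.L X.wt
  have hev : Even X.m := w6 (by
    have : X.b < X.a := hba
    unfold Dih.a Dih.b at this
    omega)
  obtain ⟨n, hn⟩ := hev
  have hm3 : 3 ≤ X.m := X.hm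
  obtain ⟨e1, e2⟩ := ge I W H X hba
  obtain ⟨⟨u1, u1'⟩, u2, u3, -, u4, u5, u6, -⟩ := gu I W H X hba
  have hne : X.e ≠ X.w0 := by
    intro h
    have h1 := congrArg X.cs.length h
    have h2 : X.cs.length X.e = X.m - 1 := w1 _ (by unfold Dih.m; omega)
    have h3 : X.cs.length X.w0 = X.m := w1 _ le_rfl
    omega
  have hm := rho_mul hb hne u2 u3
  have hi : rho X b X.ci = dl X.a := by
    rw [rho_apply, u1, map_smul, ← hb, Module.Basis.repr_self, Finsupp.smul_apply, Finsupp.single_eq_same,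
      smul_eq_mul, mul_one]
  have hj : rho X b X.cj = 0 := by
    rw [rho_apply, u1', ← hb, Module.Basis.repr_self, Finsupp.single_eq_of_ne hne]
  have hE := rho_E hb hm hi hj
  have hE0 : ∀ k, rho X b (X.E (2 * k)) = 0 := fun k => (hE k).1.1
  have hE1 : ∀ k, rho X b (X.E (2 * k + 1)) = uu (dl X.a) X.zeta k := fun k => (hE k).1.2
  have hz : X.zeta = T ((X.a : ℤ) - X.b) + T ((X.b : ℤ) - X.a) := rfl
  have hd := uu_deg (a := X.a) (d := (X.a : ℤ) - X.b) (u := dl X.a) (ζ := X.zeta) (by omega) (DegLE.dl X.a)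
    (coeff_T_add (by omega)) (by rw [hz]; exact (DegLE.T_le le_rfl).add (DegLE.T_le (by omega)))
    (by rw [hz]; exact coeff_T_add (by omega))
  have hd1 : ∀ l : ℕ, DegLE (X.a + l * ((X.a : ℤ) - X.b)) (uu (dl X.a) X.zeta l) := fun l => (hd l).1.1
  have hd2 : ∀ l : ℕ, (uu (dl X.a) X.zeta l).coeff (X.a + l * ((X.a : ℤ) - X.b)) = (-1) ^ l :=
    fun l => (hd l).1.2
  have hA : (X.A1 : ℤ) = X.a + ((n - 1 : ℕ) : ℤ) * ((X.a : ℤ) - X.b) := by
    unfold Dih.A1
    rw [show X.m / 2 = n by omega]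
    push_cast [Nat.cast_sub hba.le]
    ring
  have hchi1 : rho X b (X.D.c 1) = 1 := by rw [hc1, rho_one hb]
  have hchie : rho X b (X.D.c X.e) = uu (dl X.a) X.zeta (n - 1) := by
    have h1 : X.D.c X.e = X.E (2 * (n - 1) + 1) := by
      have h2 : X.e = X.p (2 * (n - 1) + 1) := by
        unfold Dih.e
        rw [show X.m - 1 = 2 * (n - 1) + 1 by omega]
      rw [h2]
      exact (e1 _ (by omega) (by omega)).symm
    rw [h1, hE1]
  have hchiw : rho X b (X.D.c X.w0) = 0 := by
    have h1 : X.D.c X.w0 = X.E (2 * n) := by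
      have h2 : X.w0 = X.p (2 * n) := by
        unfold Dih.w0
        rw [show X.m = 2 * n by omega]
      rw [h2]
      exact (e1 _ (by omega) (by omega)).symm
    rw [h1, hE0]
  have hchij : rho X b (X.D.c (X.cs.simple X.j)) = 0 := hj
  have hab : (0 : ℤ) < (X.a : ℤ) - X.b := by omega
  -- the degree of the character
  have hchi : ∀ x, x = 1 ∨ x = X.e ∨ DegLE ((X.A1 : ℤ) - ((X.a : ℤ) - X.b)) (rho X b (X.D.c x)) := by
    intro x
    obtain ⟨k, hk, hx | hx⟩ := w3 x
    · have hk' : k ≤ X.m := hk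
      rcases Nat.eq_zero_or_pos k with h0 | h0
      · subst h0
        exact Or.inl hx
      · have h1 : X.D.c x = X.E k := by
          rw [hx]
          exact (e1 k h0 hk').symm
        rcases Nat.even_or_odd' k with ⟨l, h2 | h2⟩
        · right; right
          rw [h1, h2, hE0]
          exact DegLE.zero _
        · by_cases h3 : l = n - 1
          · right; left
            rw [hx]
            unfold Dih.e Dih.p
            rw [show X.m - 1 = k by omega]
          · right; right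
            rw [h1, h2, hE1]
            refine (hd1 l).mono ?_
            rw [hA]
            have h4 : (l : ℤ) + 1 ≤ ((n - 1 : ℕ) : ℤ) := by omega
            nlinarith
    · have hk' : k ≤ X.m := hk
      rcases Nat.eq_zero_or_pos k with h0 | h0
      · subst h0
        exact Or.inl hx
      · right; right
        rcases Nat.eq_or_lt_of_le h0 with h1 | h1
        · have h2 : X.D.c x = X.cj := by
            rw [hx, ← h1]
            change X.D.c (X.cs.simple X.j * 1) = _
            rw [mul_one]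
            rfl
          rw [h2, hj]
          exact DegLE.zero _
        · obtain ⟨k', rfl⟩ := Nat.exists_eq_succ_of_ne_zero h0.ne'
          have h2 : X.D.c x = X.cj * X.E k' := by
            rw [hx]
            exact (e2 k' (by omega) hk').symm
          rw [h2, hm, hj, zero_mul]
          exact DegLE.zero _
  have hA1 : (X.a : ℤ) ≤ X.A1 := by
    rw [hA]
    nlinarith [Int.natCast_nonneg (n - 1)]
  have ha : 1 ≤ X.a := by omega
  have hchi_e : DegLE X.A1 (rho X b (X.D.c X.e)) := by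
    rw [hchie, hA]
    exact hd1 _
  have hchi_ne : ∀ x, x ≠ X.e → DegLE ((X.A1 : ℤ) - 1) (rho X b (X.D.c x)) := by
    intro x hx
    rcases hchi x with h | h | h
    · rw [h, hchi1]
      exact DegLE.one (by omega)
    · exact absurd h hx
    · exact h.mono (by omega)
  have hchi_le : ∀ x, DegLE X.A1 (rho X b (X.D.c x)) := by
    intro x
    by_cases hx : x = X.e
    · rw [hx]
      exact hchi_e
    · exact (hchi_ne x hx).mono (by omega)
  -- the terms of the sum
  have hterm : ∀ x y z, z ≠ X.e → DegLE ((X.A1 : ℤ) + X.b) (X.h x y z * rho X b (X.D.c z)) := by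
    intro x y z hze
    by_cases h1 : z = 1
    · subst h1
      rw [hchi1, mul_one]
      by_cases h0 : X.h x y 1 = 0
      · rw [h0]
        exact DegLE.zero _
      · obtain ⟨rfl, rfl⟩ := u4 x y h0
        exact u5.mono (by omega)
    · by_cases h2 : z = X.cs.simple X.j
      · rw [h2, hchij, mul_zero]
        exact DegLE.zero _
      · by_cases h3 : z = X.w0
        · rw [h3, hchiw, mul_zero]
          exact DegLE.zero _
        · have h4 := (u6 x y z ⟨h1, h2, hze, h3⟩).1
          rcases hchi z with h | h | h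
          · exact absurd h h1
          · exact absurd h hze
          · exact h4.mul_le h (by omega)
  -- the key identity
  have hkey : ∀ (x y : W) (k : ℤ), DegLE (k + X.A1) (rho X b (X.D.c x) * rho X b (X.D.c y)) →
      (X.A1 : ℤ) + X.b ≤ k + X.A1 → DegLE k (X.h x y X.e) := by
    intro x y k hk1 hk2
    by_cases h0 : X.h x y X.e = 0
    · rw [h0]
      exact DegLE.zero _
    · have h1 : rho X b (X.D.c x) * rho X b (X.D.c y) =
          ∑ z ∈ (X.h x y).support, X.h x y z * rho X b (X.D.c z) := by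
        rw [← hm, X.isH x y, Finsupp.sum, map_sum]
        refine Finset.sum_congr rfl fun z _ => ?_
        rw [map_smul, smul_eq_mul]
      rw [← Finset.add_sum_erase _ _ (Finsupp.mem_support_iff.2 h0)] at h1
      have h2 : X.h x y X.e * rho X b (X.D.c X.e) = rho X b (X.D.c x) * rho X b (X.D.c y) -
          ∑ z ∈ (X.h x y).support.erase X.e, X.h x y z * rho X b (X.D.c z) := by
        rw [h1]
        ring
      refine degLE_of_mul (d := X.A1) hchi_e ?_ ?_
      · rw [hchie, hA, hd2]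
        exact pow_ne_zero _ (by norm_num)
      · rw [h2]
        exact hk1.sub (DegLE.sum fun z hz => (hterm x y z (Finset.ne_of_mem_erase hz)).mono hk2)
  refine ⟨fun x y => ?_, fun x y hxy => ?_, ?_⟩
  · exact hkey x y X.A1 ((hchi_le x).mul (hchi_le y)) (by omega)
  · refine hkey x y _ ?_ (by omega)
    rcases hxy with h | h
    · exact (hchi_ne x h).mul (hchi_le y)
    · exact (hchi_le x).mul_le (hchi_ne y h) (by omega)
  · have h1 : X.h X.e X.e X.e = uu (dl X.a) X.zeta (n - 1) := by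
      rw [← rho_c hb, hchie]
    rw [h1, hA, hd2]
    exact pow_ne_zero _ (by norm_num)

end Pool.Agent.Helper41.RA
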